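import Mathlib
import Pool.Agent.Helper750.Kneser

set_option autoImplicit false

namespace Pool.Agent.Results.MP_0ca48d_co.LargeSets

open Finset
open scoped Pointwise
open Pool.Agent.Helper750.Kneser

variable {G : Type} [AddCommGroup G] [Fintype G] [DecidableEq G]

/-- The `h`-fold signed sumset of `A`. -/
def signedSumset (A : Finset G) (h : ℕ) : Set G :=
  {x | ∃ l : G → ℤ, ∑ a ∈ A, |l a| = (h : ℤ) ∧ ∑ a ∈ A, l a • a = x}

/-- `ρ_±(G,m,h)`: the least size of the `h`-fold signed sumset of an `m`-subset. -/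
noncomputable def rho (G : Type) [AddCommGroup G] [Fintype G] [DecidableEq G] (m h : ℕ) : ℕ :=
  sInf {k | ∃ A : Finset G, A.card = m ∧ (signedSumset A h).ncard = k}

/-- The number of `a ∈ A` with `-a ∈ A`. -/
def paired (A : Finset G) : ℕ := (A.filter (fun a => -a ∈ A)).card

/-- `(G,m,h)` has an exceptional minimiser. -/
def Exceptional (G : Type) [AddCommGroup G] [Fintype G] [DecidableEq G] (m h : ℕ) : Prop :=
  ∃ A : Finset G, A.card = m ∧ paired A ≠ m ∧ paired A + 1 ≠ m ∧ paired A ≠ 0 ∧
    (signedSumset A h).ncard = rho G m h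

theorem full (A : Finset G) (h : ℕ) (hh : 2 ≤ h) (hA : Fintype.card G < 2 * A.card) :
    signedSumset A h = Set.univ := by
  have hne : A.Nonempty := by
    rw [← Finset.card_pos]
    omega
  obtain ⟨c, hc⟩ := hne
  rw [Set.eq_univ_iff_forall]
  intro g
  obtain ⟨k, rfl⟩ : ∃ k, h = k + 2 := ⟨h - 2, by omega⟩
  set x := g - (k : ℤ) • c with hx
  have hinj : Function.Injective (fun a : G => x - a) := fun a b hab => by
    simpa using hab
  have hcard : (A.image (fun a => x - a)).card = A.card := Finset.card_image_of_injective _ hinj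
  have hnd : ¬ Disjoint A (A.image (fun a => x - a)) := by
    intro hd
    have h1 := Finset.card_union_of_disjoint hd
    have h2 := Finset.card_le_univ (A ∪ A.image (fun a => x - a))
    omega
  rw [Finset.not_disjoint_iff] at hnd
  obtain ⟨a, ha, ha2⟩ := hnd
  rw [Finset.mem_image] at ha2
  obtain ⟨b, hb, hab⟩ := ha2
  refine ⟨fun y => (if y = a then 1 else 0) + (if y = b then 1 else 0) +
    (if y = c then (k : ℤ) else 0), ?_, ?_⟩
  · have h1 : ∀ y ∈ A, |(if y = a then (1 : ℤ) else 0) + (if y = b then 1 else 0) +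
        (if y = c then (k : ℤ) else 0)| = (if y = a then 1 else 0) + (if y = b then 1 else 0) +
        (if y = c then (k : ℤ) else 0) := by
      intro y _
      apply abs_of_nonneg
      have : (0 : ℤ) ≤ k := Int.natCast_nonneg k
      split_ifs <;> omega
    rw [Finset.sum_congr rfl h1, Finset.sum_add_distrib, Finset.sum_add_distrib,
      Finset.sum_ite_eq', Finset.sum_ite_eq', Finset.sum_ite_eq', if_pos ha, if_pos hb, if_pos hc]
    push_cast
    ring
  · have h1 : ∀ y ∈ A, ((if y = a then (1 : ℤ) else 0) + (if y = b then 1 else 0) +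
        (if y = c then (k : ℤ) else 0)) • y = (if y = a then y else 0) + (if y = b then y else 0) +
        (if y = c then (k : ℤ) • y else 0) := by
      intro y _
      rw [add_smul, add_smul]
      congr 1
      · congr 1
        · split_ifs <;> simp
        · split_ifs <;> simp
      · split_ifs <;> simp
    rw [Finset.sum_congr rfl h1, Finset.sum_add_distrib, Finset.sum_add_distrib,
      Finset.sum_ite_eq', Finset.sum_ite_eq', Finset.sum_ite_eq', if_pos ha, if_pos hb, if_pos hc,
      ← hab, hx]
    abel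

theorem rho_eq (m h : ℕ) (hh : 2 ≤ h) (hm : Fintype.card G < 2 * m) (hmn : m ≤ Fintype.card G) :
    rho G m h = Fintype.card G := by
  have : {k | ∃ A : Finset G, A.card = m ∧ (signedSumset A h).ncard = k} = {Fintype.card G} := by
    ext k
    simp only [Set.mem_ofPred_eq, Set.mem_singleton_iff]
    constructor
    · rintro ⟨A, hA, rfl⟩
      rw [full A h hh (by omega), Set.ncard_univ, Nat.card_eq_fintype_card]
    · rintro rfl
      obtain ⟨A, -, hA⟩ := Finset.exists_subset_card_eq (s := (Finset.univ : Finset G)) (n := m)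
        (by rw [Finset.card_univ]; exact hmn)
      exact ⟨A, hA, by rw [full A h hh (by omega), Set.ncard_univ, Nat.card_eq_fintype_card]⟩
  rw [rho, this, csInf_singleton]

theorem necessary (A : Finset G) (h1 : paired A ≠ A.card) (h2 : paired A + 1 ≠ A.card)
    (h3 : paired A ≠ 0) :
    3 ≤ A.card ∧ A.card + 2 ≤ Fintype.card G ∧
      4 ≤ (Finset.univ.filter (fun x : G => x + x ≠ 0)).card := by
  classical
  set U := A.filter (fun a => -a ∉ A) with hU
  have hsum : paired A + U.card = A.card := by
    rw [paired, hU]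
    exact Finset.card_filter_add_card_filter_not (s := A) (fun a => -a ∈ A)
  have hU2 : 2 ≤ U.card := by omega
  have hneg : (U.image (fun a => -a)).card = U.card :=
    Finset.card_image_of_injective _ neg_injective
  have hsub : U.image (fun a => -a) ⊆ Aᶜ := by
    intro x hx
    rw [Finset.mem_image] at hx
    obtain ⟨a, ha, rfl⟩ := hx
    rw [Finset.mem_compl]
    exact (Finset.mem_filter.mp ha).2
  have hc := Finset.card_le_card hsub
  rw [Finset.card_compl] at hc
  have hAle := Finset.card_le_univ A
  have hdisj : Disjoint U (U.image (fun a => -a)) := by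
    apply Finset.disjoint_of_subset_left (Finset.filter_subset _ _)
    exact Finset.disjoint_of_subset_right hsub disjoint_compl_right
  have hun : U ∪ U.image (fun a => -a) ⊆ Finset.univ.filter (fun x : G => x + x ≠ 0) := by
    intro x hx
    rw [Finset.mem_filter]
    refine ⟨Finset.mem_univ _, fun h0 => ?_⟩
    have hxx : -x = x := by
      rw [neg_eq_iff_add_eq_zero]
      exact h0
    rcases Finset.mem_union.mp hx with hx | hx
    · have := Finset.mem_filter.mp hx
      rw [hxx] at this
      exact this.2 this.1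
    · obtain ⟨a, ha, rfl⟩ := Finset.mem_image.mp hx
      have := Finset.mem_filter.mp ha
      rw [neg_neg] at hxx
      rw [← hxx] at this
      exact this.2 (by simpa [← hxx] using this.1)
  have hcard := Finset.card_le_card hun
  rw [Finset.card_union_of_disjoint hdisj, hneg] at hcard
  omega

theorem exists_outside (m : ℕ) (h1 : 3 ≤ m) (h2 : m + 2 ≤ Fintype.card G)
    (h3 : 4 ≤ (Finset.univ.filter (fun x : G => x + x ≠ 0)).card) :
    ∃ A : Finset G, A.card = m ∧ paired A ≠ m ∧ paired A + 1 ≠ m ∧ paired A ≠ 0 := by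
  classical
  obtain ⟨a, ha⟩ : (Finset.univ.filter (fun x : G => x + x ≠ 0)).Nonempty := by
    rw [← Finset.card_pos]
    omega
  obtain ⟨b, hb, hb2⟩ : ∃ b ∈ Finset.univ.filter (fun x : G => x + x ≠ 0), b ∉ ({a, -a} : Finset G) := by
    apply Finset.exists_mem_notMem_of_card_lt_card
    have := Finset.card_le_two (a := a) (b := -a)
    omega
  have ha' : a + a ≠ 0 := (Finset.mem_filter.mp ha).2
  have hb' : b + b ≠ 0 := (Finset.mem_filter.mp hb).2
  rw [Finset.mem_insert, Finset.mem_singleton, not_or] at hb2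
  obtain ⟨hba, hbna⟩ := hb2
  have ha0 : a ≠ 0 := by
    rintro rfl
    simp at ha'
  have hb0 : b ≠ 0 := by
    rintro rfl
    simp at hb'
  have haa : a ≠ -a := fun h => ha' (by rw [← neg_eq_iff_add_eq_zero]; exact h.symm)
  have hbb : b ≠ -b := fun h => hb' (by rw [← neg_eq_iff_add_eq_zero]; exact h.symm)
  have hanb : a ≠ -b := fun h => hbna (by rw [h, neg_neg])
  have hS : ({0, a, b} : Finset G) ⊆ ({-a, -b} : Finset G)ᶜ := by
    intro x hx
    rw [Finset.mem_insert, Finset.mem_insert, Finset.mem_singleton] at hx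
    rw [Finset.mem_compl, Finset.mem_insert, Finset.mem_singleton, not_or]
    rcases hx with rfl | rfl | rfl
    · exact ⟨fun h => ha0 (by simpa using h.symm), fun h => hb0 (by simpa using h.symm)⟩
    · exact ⟨haa, hanb⟩
    · exact ⟨hbna, hbb⟩
  have hScard : ({0, a, b} : Finset G).card ≤ 3 := Finset.card_le_three
  have hTcard : m ≤ (({-a, -b} : Finset G)ᶜ).card := by
    rw [Finset.card_compl]
    have := Finset.card_le_two (a := -a) (b := -b)
    omega
  obtain ⟨A, hA1, hA2, hA3⟩ := Finset.exists_subsuperset_card_eq hS (by omega) hTcard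
  have ha1 : a ∈ A := hA1 (by simp)
  have hb1 : b ∈ A := hA1 (by simp)
  have h01 : (0 : G) ∈ A := hA1 (by simp)
  have hna : -a ∉ A := fun h => by
    have := hA2 h
    simp at this
  have hnb : -b ∉ A := fun h => by
    have := hA2 h
    simp at this
  have hle : paired A + 2 ≤ A.card := by
    have hsub : A.filter (fun a => -a ∈ A) ⊆ (A.erase a).erase b := by
      intro x hx
      rw [Finset.mem_filter] at hx
      rw [Finset.mem_erase, Finset.mem_erase]
      exact ⟨fun h => hnb (h ▸ hx.2), fun h => hna (h ▸ hx.2), hx.1⟩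
    have := Finset.card_le_card hsub
    rw [Finset.card_erase_of_mem (Finset.mem_erase.mpr ⟨hba, hb1⟩),
      Finset.card_erase_of_mem ha1] at this
    rw [paired]
    omega
  have hpos : 0 < paired A := by
    rw [paired, Finset.card_pos]
    exact ⟨0, Finset.mem_filter.mpr ⟨h01, by simpa using h01⟩⟩
  exact ⟨A, hA3, by omega, by omega, by omega⟩

/-- If `ρ_±(G,m,h) = |G|` then every `m`-subset is a minimiser. -/
theorem ncard_eq_of_rho (A : Finset G) (h : ℕ) (hr : rho G A.card h = Fintype.card G) :
    (signedSumset A h).ncard = Fintype.card G := by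
  apply le_antisymm
  · rw [← Nat.card_eq_fintype_card, ← Set.ncard_univ]
    exact Set.ncard_le_ncard (Set.subset_univ _) Set.finite_univ
  · rw [← hr]
    exact Nat.sInf_le ⟨A, rfl, rfl⟩

/-- Iterated Kneser for a set which is a union of cosets of the stabiliser of its sumset. -/
theorem kneser_iter {A : Finset G} (hA : A.Nonempty) (k : ℕ) (hk : 1 ≤ k)
    (hst : stab A = stab (sm k A)) :
    k * A.card ≤ (sm k A).card + (k - 1) * (els (stab A)).card := by
  induction k with
  | zero => omega
  | succ k ih =>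
    rcases Nat.eq_zero_or_pos k with rfl | hkpos
    · rw [sm_one]; omega
    · have hst' : stab A = stab (sm k A) := by
        apply le_antisymm
        · have := stab_sm_mono hkpos A
          rwa [sm_one] at this
        · rw [hst]
          exact stab_sm_mono (Nat.le_succ k) A
      have h1 := ih hkpos hst'
      have h2 := kneser (sm_nonempty hA k) hA
      rw [← sm_succ, ← hst] at h2
      obtain ⟨j, rfl⟩ : ∃ j, k = j + 1 := ⟨k - 1, by omega⟩
      simp only [Nat.add_sub_cancel] at h1 ⊢
      have e1 : (j + 1 + 1) * A.card = (j + 1) * A.card + A.card := by ring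
      have e2 : (j + 1) * (els (stab A)).card = j * (els (stab A)).card + (els (stab A)).card := by
        ring
      omega

theorem els_add_els (H : AddSubgroup G) : els H + els H = els H := by
  ext x
  rw [Finset.mem_add]
  constructor
  · rintro ⟨a, ha, b, hb, rfl⟩
    exact mem_els.2 (H.add_mem (mem_els.1 ha) (mem_els.1 hb))
  · intro hx
    exact ⟨x, hx, 0, mem_els.2 H.zero_mem, add_zero x⟩

theorem add_els_of_le {C : Finset G} {H : AddSubgroup G} (hH : H ≤ stab C) : C + els H = C := by
  ext x
  rw [Finset.mem_add]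
  constructor
  · rintro ⟨a, ha, b, hb, rfl⟩
    have := (hH (mem_els.1 hb) a).2 ha
    rwa [add_comm] at this
  · intro hx
    exact ⟨x, hx, 0, mem_els.2 H.zero_mem, add_zero x⟩

theorem le_stab_add_els (C : Finset G) (H : AddSubgroup G) : H ≤ stab (C + els H) := by
  intro g hg
  apply mem_stab_of_forall
  intro x hx
  rw [Finset.mem_add] at hx ⊢
  obtain ⟨a, ha, b, hb, rfl⟩ := hx
  exact ⟨a, ha, g + b, mem_els.2 (H.add_mem hg (mem_els.1 hb)), by abel⟩

theorem sm_add_els (C : Finset G) (H : AddSubgroup G) (k : ℕ) (hk : 1 ≤ k) :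
    sm k (C + els H) = sm k C + els H := by
  induction k with
  | zero => omega
  | succ k ih =>
    rcases Nat.eq_zero_or_pos k with rfl | hkpos
    · rw [sm_one, sm_one]
    · rw [sm_succ, ih hkpos, sm_succ, add_add_add_comm, els_add_els]

theorem card_dvd (C : Finset G) (H : AddSubgroup G) (hH : H ≤ stab C) :
    (els H).card ∣ C.card := by
  have h : C + els H = C := add_els_of_le hH
  have : (els H).card ∣ (C + els H).card := by
    apply Finset.card_dvd_card_add_right
    intro a ha b hb hab
    obtain ⟨x, hx, rfl⟩ := ha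
    obtain ⟨y, hy, rfl⟩ := hb
    rw [Function.onFun, id, id, Finset.disjoint_left]
    intro z hz1 hz2
    apply hab
    simp only [Finset.mem_vadd_finset, vadd_eq_add] at hz1 hz2
    obtain ⟨u, hu, rfl⟩ := hz1
    obtain ⟨v, hv, hv2⟩ := hz2
    have hyx : y - x ∈ H := by
      have : y - x = u - v := by
        rw [sub_eq_sub_iff_add_eq_add, hv2, add_comm]
      rw [this]
      exact H.sub_mem (mem_els.1 hu) (mem_els.1 hv)
    ext w
    simp only [Finset.mem_vadd_finset, vadd_eq_add]
    constructor
    · rintro ⟨t, ht, rfl⟩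
      exact ⟨-(y - x) + t, mem_els.2 (H.add_mem (H.neg_mem hyx) (mem_els.1 ht)), by abel⟩
    · rintro ⟨t, ht, rfl⟩
      exact ⟨(y - x) + t, mem_els.2 (H.add_mem hyx (mem_els.1 ht)), by abel⟩
  rwa [h] at this

theorem sm_coeff (A : Finset G) (k : ℕ) : ∀ x ∈ sm k A,
    ∃ l : G → ℕ, ∑ a ∈ A, l a = k ∧ ∑ a ∈ A, l a • a = x := by
  induction k with
  | zero =>
    intro x hx
    rw [sm_zero, Finset.mem_singleton] at hx
    exact ⟨fun _ => 0, by simp, by simp [hx]⟩
  | succ k ih =>
    intro x hx
    rw [sm_succ, Finset.mem_add] at hx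
    obtain ⟨y, hy, b, hb, rfl⟩ := hx
    obtain ⟨l, h1, h2⟩ := ih y hy
    refine ⟨fun a => l a + (if a = b then 1 else 0), ?_, ?_⟩
    · rw [Finset.sum_add_distrib, h1, Finset.sum_ite_eq', if_pos hb]
    · have : ∀ a ∈ A, (l a + (if a = b then 1 else 0)) • a = l a • a + (if a = b then a else 0) := by
        intro a _
        rw [add_smul]
        congr 1
        split_ifs <;> simp
      rw [Finset.sum_congr rfl this, Finset.sum_add_distrib, h2, Finset.sum_ite_eq', if_pos hb]

theorem sm_sub (A : Finset G) (k : ℕ) (x : G) (hx : x ∈ sm k A) : x ∈ signedSumset A k := by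
  obtain ⟨l, h1, h2⟩ := sm_coeff A k x hx
  refine ⟨fun a => (l a : ℤ), ?_, ?_⟩
  · have : ∀ a ∈ A, |((l a : ℕ) : ℤ)| = ((l a : ℕ) : ℤ) := fun a _ => abs_of_nonneg (by positivity)
    rw [Finset.sum_congr rfl this, ← h1]
    push_cast
    rfl
  · rw [← h2]
    apply Finset.sum_congr rfl
    intro a _
    exact natCast_zsmul a (l a)

theorem full_crit (A : Finset G) (h : ℕ) (hh : 1 ≤ h) (hA : A.Nonempty)
    (hc : ∀ d, d ∣ Fintype.card G →
      Fintype.card G + (h - 1) * d ≤ h * ((A.card + d - 1) / d) * d) :
    signedSumset A h = Set.univ := by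
  classical
  set C := sm h A with hC
  set H := stab C with hH
  set B := A + els H with hB
  have hBC : sm h B = C := by
    rw [hB, sm_add_els A H h hh, ← hC]
    exact add_els_of_le le_rfl
  have hBne : B.Nonempty := hA.add ⟨0, mem_els.2 H.zero_mem⟩
  have hst : stab B = stab (sm h B) := by
    apply le_antisymm
    · have := stab_sm_mono hh B
      rwa [sm_one] at this
    · rw [hBC]
      exact le_stab_add_els A H
  have hk := kneser_iter hBne h hh hst
  rw [hst, hBC, ← hH] at hk
  have hdpos : 0 < (els H).card := Finset.card_pos.mpr ⟨0, mem_els.2 H.zero_mem⟩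
  have hdn : (els H).card ∣ Fintype.card G := by
    rw [← Finset.card_univ]
    apply card_dvd
    intro g _ x
    simp
  obtain ⟨t, ht⟩ : (els H).card ∣ B.card := card_dvd B H (le_stab_add_els A H)
  have hAB : A.card ≤ B.card := by
    apply Finset.card_le_card
    intro x hx
    rw [hB, Finset.mem_add]
    exact ⟨x, hx, 0, mem_els.2 H.zero_mem, add_zero x⟩
  have hcd := hc _ hdn
  set d := (els H).card with hd
  have hq : (A.card + d - 1) / d ≤ t := by
    rw [Nat.div_le_iff_le_mul_add_pred hdpos]
    rw [ht] at hAB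
    omega
  have h1 : h * ((A.card + d - 1) / d) * d ≤ h * B.card := by
    rw [ht, mul_assoc]
    apply Nat.mul_le_mul_left
    rw [mul_comm d t]
    exact Nat.mul_le_mul_right _ hq
  have h2 : Fintype.card G ≤ C.card := by
    have := hcd.trans (h1.trans hk)
    exact Nat.le_of_add_le_add_right this
  have hCu : C = Finset.univ := by
    rw [← Finset.card_eq_iff_eq_univ]
    exact le_antisymm (Finset.card_le_univ C) h2
  rw [Set.eq_univ_iff_forall]
  intro x
  apply sm_sub
  rw [← hC, hCu]
  exact Finset.mem_univ x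

theorem rho_of_full (m h : ℕ) (hmn : m ≤ Fintype.card G)
    (hf : ∀ A : Finset G, A.card = m → signedSumset A h = Set.univ) :
    rho G m h = Fintype.card G := by
  have : {k | ∃ A : Finset G, A.card = m ∧ (signedSumset A h).ncard = k} = {Fintype.card G} := by
    ext k
    simp only [Set.mem_ofPred_eq, Set.mem_singleton_iff]
    constructor
    · rintro ⟨A, hA, rfl⟩
      rw [hf A hA, Set.ncard_univ, Nat.card_eq_fintype_card]
    · rintro rfl
      obtain ⟨A, -, hA⟩ := Finset.exists_subset_card_eq (s := (Finset.univ : Finset G)) (n := m)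
        (by rw [Finset.card_univ]; exact hmn)
      exact ⟨A, hA, by rw [hf A hA, Set.ncard_univ, Nat.card_eq_fintype_card]⟩
  rw [rho, this, csInf_singleton]

/-- Every triple `(G,m,h)` with an exceptional minimiser has `3 ≤ m ≤ |G| - 2` and at least four
elements `x` with `2x ≠ 0`; the converse holds whenever `ρ_±(G,m,h) = |G|`, in particular
whenever `|G| < 2m ≤ 2|G|` and `h ≥ 2`, and more generally whenever
`|G| ≤ (h⌈m/d⌉ - h + 1) d` for every divisor `d` of `|G|`. -/
theorem result (G : Type) [AddCommGroup G] [Fintype G] [DecidableEq G] (m h : ℕ) :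
    (Exceptional G m h → 3 ≤ m ∧ m + 2 ≤ Fintype.card G ∧
      4 ≤ (Finset.univ.filter (fun x : G => x + x ≠ 0)).card) ∧
    (rho G m h = Fintype.card G →
      (Exceptional G m h ↔ 3 ≤ m ∧ m + 2 ≤ Fintype.card G ∧
        4 ≤ (Finset.univ.filter (fun x : G => x + x ≠ 0)).card)) ∧
    (2 ≤ h → Fintype.card G < 2 * m → m ≤ Fintype.card G → rho G m h = Fintype.card G) ∧
    (1 ≤ h → 1 ≤ m → m ≤ Fintype.card G →
      (∀ d, d ∣ Fintype.card G →
        Fintype.card G + (h - 1) * d ≤ h * ((m + d - 1) / d) * d) →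
      rho G m h = Fintype.card G) := by
  have hnec : Exceptional G m h → 3 ≤ m ∧ m + 2 ≤ Fintype.card G ∧
      4 ≤ (Finset.univ.filter (fun x : G => x + x ≠ 0)).card := by
    rintro ⟨A, rfl, h1, h2, h3, -⟩
    exact necessary A h1 h2 h3
  refine ⟨hnec, fun hr => ⟨hnec, ?_⟩, fun hh hm hmn => rho_eq m h hh hm hmn,
    fun hh hm hmn hc => rho_of_full m h hmn (fun A hA => full_crit A h hh ?_ ?_)⟩
  · rintro ⟨h3, h1, h2⟩
    obtain ⟨A, hA, hp1, hp2, hp3⟩ := exists_outside m h3 h1 h2
    refine ⟨A, hA, hp1, hp2, hp3, ?_⟩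
    rw [hr]
    apply ncard_eq_of_rho
    rw [hA, hr]
  · rw [← Finset.card_pos]
    omega
  · rw [hA]
    exact hc

end Pool.Agent.Results.MP_0ca48d_co.LargeSets
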